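import Mathlib
import Pool.Agent.H895R2.SB.Ends
import Pool.Agent.H895R2.SB.Pos
import Pool.Agent.Y469.SP.Bd
import Pool.Agent.Y469.SP.Fin

/-!
# Splittings over two-ended subgroups and Bestvina boundaries: subgroups of finite index, products

Let `Z₀` be the one-point compactification of `(ℕ × (ℕ → Fin 3)) × ℝ`, a compactum.

* (1) `Z₀` is a Bestvina boundary of `F₂ × ℤ`, which splits over a two-ended subgroup, and of all
  subgroups of finite index of `F₂ × ℤ`.
* (2) `Z₀` is a Bestvina boundary of every subgroup `K` of finite index of `F₂ × F₂`, and no such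
  `K` splits over a two-ended subgroup.
* (3) In particular this holds for `P × Q`, where `P`, `Q` are subgroups of finite index of `F₂`.
* (4) If `A`, `B` are finitely generated groups which contain nonabelian free groups, then `A × B`
  does not split over a two-ended subgroup.
* (5) A Bestvina boundary of a group is a Bestvina boundary of each of its subgroups of finite
  index.

Groups with an injective homomorphism onto a subgroup of finite index stand for subgroups of finite
index. The starting file `SplittingNotDetected` has the pair `F₂ × ℤ`, `F₂ × F₂`. New are the passage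
of Z-structures to subgroups of finite index (a compact set which meets all orbits, and finitely
many translates of it), and the theorem on splittings: Serre's lemma for finitely generated groups
instead of groups with two generators, and commutators without common powers in the subgroups of
finite index of `F₂`.
-/

set_option autoImplicit false

namespace Pool.Agent.Results.MP_ff8665_gt.FiniteIndexAndProducts

open Pool.Agent.Helper376.CL Pool.Agent.H895R2.SB

/-- the free group of rank two -/
abbrev F₂ : Type := FreeGroup (Fin 2)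

/-- the common boundary -/
abbrev Z₀ : Type := OnePoint ((ℕ × (ℕ → Fin 3)) × ℝ)

theorem finiteIndex_prod (P Q : Subgroup F₂) (hP : P.FiniteIndex) (hQ : Q.FiniteIndex) :
    (MonoidHom.prodMap P.subtype Q.subtype).range.FiniteIndex := by
  have e : (MonoidHom.prodMap P.subtype Q.subtype).range =
      P.comap (MonoidHom.fst F₂ F₂) ⊓ Q.comap (MonoidHom.snd F₂ F₂) := by
    ext x
    constructor
    · rintro ⟨y, rfl⟩
      exact ⟨y.1.2, y.2.2⟩
    · rintro ⟨h1, h2⟩
      exact ⟨(⟨x.1, h1⟩, ⟨x.2, h2⟩), rfl⟩
  rw [e]
  have h1 := Pool.Agent.Y469.SP.finiteIndex_comap (MonoidHom.fst F₂ F₂) P hP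
  have h2 := Pool.Agent.Y469.SP.finiteIndex_comap (MonoidHom.snd F₂ F₂) Q hQ
  infer_instance

theorem result :
    -- (1)
    (IsZBoundary (F₂ × Multiplicative ℤ) Z₀ ∧ SplitsOverTwoEnded (F₂ × Multiplicative ℤ) ∧
      ∀ (L : Type) [Group L] (φ : L →* F₂ × Multiplicative ℤ), Function.Injective φ →
        φ.range.FiniteIndex → IsZBoundary L Z₀) ∧
    -- (2)
    (∀ (K : Type) [Group K] (φ : K →* F₂ × F₂), Function.Injective φ → φ.range.FiniteIndex →
      IsZBoundary K Z₀ ∧ ¬ SplitsOverTwoEnded K) ∧
    -- (3)
    (∀ P Q : Subgroup F₂, P.FiniteIndex → Q.FiniteIndex →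
      IsZBoundary (P × Q) Z₀ ∧ ¬ SplitsOverTwoEnded (P × Q)) ∧
    -- (4)
    (∀ (A B : Type) [Group A] [Group B] [Group.FG A] [Group.FG B],
      (∃ f : F₂ →* A, Function.Injective f) → (∃ f : F₂ →* B, Function.Injective f) →
      ¬ SplitsOverTwoEnded (A × B)) ∧
    -- (5)
    (∀ (G H : Type) [Group G] [Group H] (Z : Type) [TopologicalSpace Z] (φ : H →* G),
      Function.Injective φ → φ.range.FiniteIndex → IsZBoundary G Z → IsZBoundary H Z) := by
  have h2 : ∀ (K : Type) [Group K] (φ : K →* F₂ × F₂), Function.Injective φ →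
      φ.range.FiniteIndex → IsZBoundary K Z₀ ∧ ¬ SplitsOverTwoEnded K := by
    intro K _ φ hinj hfi
    exact ⟨Pool.Agent.Y469.SP.boundary_finiteIndex φ hinj hfi bd_FF,
      Pool.Agent.Y469.SP.not_splits_finiteIndex K φ hinj hfi⟩
  refine ⟨⟨bd_FZ, splits_FZ, fun L _ φ hinj hfi =>
    Pool.Agent.Y469.SP.boundary_finiteIndex φ hinj hfi bd_FZ⟩, h2, ?_, ?_, ?_⟩
  · intro P Q hP hQ
    refine h2 (P × Q) (MonoidHom.prodMap P.subtype Q.subtype) ?_ (finiteIndex_prod P Q hP hQ)
    intro x y h
    exact Prod.ext (Subtype.ext (congrArg Prod.fst h)) (Subtype.ext (congrArg Prod.snd h))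
  · rintro A B _ _ _ _ ⟨f, hf⟩ ⟨g, hg⟩
    exact Pool.Agent.Y469.SP.not_splits_prod A B
      (Pool.Agent.Y469.SP.rich_free.map f hf) (Pool.Agent.Y469.SP.rich_free.map g hg)
  · intro G H _ _ Z _ φ hinj hfi h
    exact Pool.Agent.Y469.SP.boundary_finiteIndex φ hinj hfi h

end Pool.Agent.Results.MP_ff8665_gt.FiniteIndexAndProducts
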